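import Mathlib

namespace Pool.Agent.Results.MP_5514a7_co.Counter

open Finset Equiv

/-- The letter of the word `w` at position `t` (positions and letters counted from `0`). -/
def ext {m n : ℕ} (w : Fin m → Fin n) (t : ℕ) : ℕ := if h : t < m then w ⟨t, h⟩ else 0

open Classical in
/-- The set of occurrences of the consecutive pattern `p` in `w`. -/
noncomputable def Occ {l m n : ℕ} (p : Perm (Fin l)) (w : Fin m → Fin n) : Finset ℕ :=
  {j ∈ range m | j + l ≤ m ∧ ∀ a b : Fin l, ext w (j + a) < ext w (j + b) ↔ p a < p b}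

/-- The word `w` contains the letter `b` exactly `k b` times. -/
def Cont {ι : Type} [Fintype ι] {n : ℕ} (k : Fin n → ℕ) (w : ι → Fin n) : Prop :=
  ∀ b, #{i | w i = b} = k b

/-- The distribution of occurrences depends on the multiplicities only as a multiset. -/
def Stable {l : ℕ} (p : Perm (Fin l)) : Prop :=
  ∀ (n : ℕ) (k : Fin n → ℕ) (σ : Perm (Fin n)) (s : ℕ),
    {w : Fin (∑ b, k b) → Fin n | Cont k w ∧ #(Occ p w) = s}.ncard =
    {w : Fin (∑ b, k (σ b)) → Fin n | Cont (k ∘ σ) w ∧ #(Occ p w) = s}.ncard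

section
variable {ι γ : Type} [Fintype ι] (κ : ι → γ) (r : ι → ℕ) {n : ℕ}

def Ch (u : ι → Fin n) : Prop := ∀ i j, κ i = κ j → r i < r j → u i < u j

open Classical in
noncomputable def bk (s : Perm (Fin n)) (u : ι → Fin n) (i : ι) : Fin n :=
  if ∃ j, κ j = κ i ∧ u j = s (u i) then u i else s (u i)

theorem bk_bk (s : Perm (Fin n)) (hs : ∀ x, s (s x) = x) (u : ι → Fin n) :
    bk κ s (bk κ s u) = u := by
  funext i
  by_cases h : ∃ j, κ j = κ i ∧ u j = s (u i)
  · have a : bk κ s u i = u i := if_pos h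
    obtain ⟨j, x, y⟩ := h
    have b : bk κ s u j = u j := if_pos ⟨i, x.symm, by rw [y, hs]⟩
    exact (if_pos ⟨j, x, by rw [a, b, y]⟩).trans a
  · have a : bk κ s u i = s (u i) := if_neg h
    refine (if_neg ?_).trans (by rw [a, hs])
    rintro ⟨j, x, y⟩
    rw [a, hs, bk] at y
    split_ifs at y with q
    · obtain ⟨l, z, v⟩ := q
      exact h ⟨l, z.trans x, by rw [v, y]⟩
    · exact h ⟨j, x, by rw [← y, hs]⟩

theorem one (hr : r.Injective) (s : Perm (Fin n)) (hs : ∀ x, s (s x) = x)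
    (ht : ∀ x y, x < y → x ≠ s y → x < s y ∧ s x < y ∧ s x < s y) (k : Fin n → ℕ)
    (u : ι → Fin n) (h : Ch κ r u) (c : Cont k u) :
    Ch κ r (bk κ s u) ∧ Cont (k ∘ s) (bk κ s u) := by
  classical
  have a : Ch κ r (bk κ s u) := fun i j e l => by
    have x := h i j e l
    unfold bk
    split_ifs with p q q
    · exact x
    · exact (ht _ _ x fun y => q ⟨i, e, y⟩).1
    · exact (ht _ _ x fun y => p ⟨j, e.symm, by rw [y, hs]⟩).2.1
    · exact (ht _ _ x fun y => q ⟨i, e, y⟩).2.2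
  have t : ∀ v : ι → Fin n, Ch κ r v → ∀ b, #{i | v i = b} = #(({i | v i = b} : Finset ι).image κ) :=
    fun v hv b => (card_image_of_injOn fun i x j y e => by
      by_contra q
      simp only [coe_filter, mem_univ, true_and, Set.mem_ofPred_eq] at x y
      rcases lt_or_gt_of_ne (hr.ne q) with l | l
      · exact (hv i j e l).ne (x.trans y.symm)
      · exact (hv j i e.symm l).ne (y.trans x.symm)).symm
  have d : ∀ (v : ι → Fin n) b, ({i | bk κ s v i = b} : Finset ι).image κ ⊆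
      ({i | v i = s b} : Finset ι).image κ := fun v b g => by
    simp only [mem_image, mem_filter, mem_univ, true_and, bk]
    rintro ⟨i, x, y⟩
    split_ifs at x with q
    · obtain ⟨j, z, t⟩ := q
      exact ⟨j, by rw [t, x], z.trans y⟩
    · exact ⟨i, by rw [← x, hs], y⟩
  refine ⟨a, fun b => ?_⟩
  have e := d (bk κ s u) (s b)
  rw [bk_bk κ s hs, hs] at e
  rw [t _ a, Subset.antisymm (d u b) e, ← t _ h, c]
  rfl

theorem sym (hr : r.Injective) (σ : Perm (Fin n)) : ∀ k : Fin n → ℕ,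
    {u | Cont k u ∧ Ch κ r u}.ncard = {u | Cont (k ∘ σ) u ∧ Ch κ r u}.ncard := by
  rcases n with _ | n
  · intro k
    rw [Subsingleton.elim (k ∘ σ) k]
  have : σ ∈ Submonoid.closure (Set.range fun i : Fin n => swap i.castSucc i.succ) := by
    rw [Perm.mclosure_swap_castSucc_succ]; trivial
  induction this using Submonoid.closure_induction with
  | one => exact fun k => rfl
  | mul a b _ _ x y => exact fun k => (x k).trans (y _)
  | mem s h =>
    obtain ⟨a, rfl⟩ := h
    have hs := swap_apply_self a.castSucc a.succ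
    have ht : ∀ x y : Fin (n + 1), x < y → x ≠ swap a.castSucc a.succ y →
        x < swap a.castSucc a.succ y ∧ swap a.castSucc a.succ x < y ∧
        swap a.castSucc a.succ x < swap a.castSucc a.succ y := fun x y => by
      simp only [swap_apply_def, Fin.ext_iff, Fin.lt_def, ne_eq]
      split_ifs <;> simp_all <;> omega
    have le : ∀ k : Fin (n + 1) → ℕ, {u | Cont k u ∧ Ch κ r u}.ncard ≤
        {u | Cont (k ∘ swap a.castSucc a.succ) u ∧ Ch κ r u}.ncard := fun k =>
      Set.ncard_le_ncard_of_injOn (bk κ _) (fun u h => (one κ r hr _ hs ht k u h.2 h.1).symm)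
        (Function.LeftInverse.injective (bk_bk κ _ hs)).injOn
    intro k
    refine (le k).antisymm ((le _).trans_eq ?_)
    rw [show (k ∘ swap a.castSucc a.succ) ∘ swap a.castSucc a.succ = k from
      funext fun x => congrArg k (hs x)]

end

/-- The pattern `12435`. -/
def p0 : Perm (Fin 5) := swap 2 3

theorem occ {m n : ℕ} (w : Fin m → Fin n) (j : ℕ) : j ∈ Occ p0 w ↔ j + 5 ≤ m ∧
    ext w j < ext w (j + 1) ∧ ext w (j + 1) < ext w (j + 3) ∧ ext w (j + 3) < ext w (j + 2) ∧
    ext w (j + 2) < ext w (j + 4) := by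
  simp only [Occ, mem_filter, mem_range]
  refine ⟨fun ⟨_, a, h⟩ => ⟨a, (h 0 1).2 (by decide), (h 1 3).2 (by decide), (h 3 2).2 (by decide),
    (h 2 4).2 (by decide)⟩, fun ⟨a, h⟩ => ⟨by omega, a, fun x y => ?_⟩⟩
  fin_cases x <;> fin_cases y <;> simp [p0, swap_apply_def] <;> omega

def rho (S : Finset ℕ) (t : ℕ) : ℕ :=
  if 2 ≤ t ∧ t - 2 ∈ S then t + 1 else if 3 ≤ t ∧ t - 3 ∈ S then t - 1 else t

def sd (S : Finset ℕ) : Setoid ℕ where
  r i j := ∀ t, (i ≤ t ∧ t < j) ∨ (j ≤ t ∧ t < i) → ∃ x ∈ S, x ≤ t ∧ t ≤ x + 3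
  iseqv := ⟨fun _ t h => by omega, fun h t e => h t e.symm, fun {i j k} a b t e =>
    if h : (i ≤ t ∧ t < j) ∨ (j ≤ t ∧ t < i) then a t h else b t (by omega)⟩

theorem sub {m n : ℕ} (S : Finset ℕ) (σ : Perm (Fin n)) (k : Fin n → ℕ) :
    {w : Fin m → Fin n | Cont k w ∧ S ⊆ Occ p0 w}.ncard =
    {w : Fin m → Fin n | Cont (k ∘ σ) w ∧ S ⊆ Occ p0 w}.ncard := by
  by_cases g : ∀ j ∈ S, j + 5 ≤ m ∧ j + 1 ∉ S ∧ j + 2 ∉ S
  swap
  · have : ∀ w : Fin m → Fin n, ¬ S ⊆ Occ p0 w := fun w h => g fun j hj => by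
      have a := (occ w j).1 (h hj)
      refine ⟨a.1, fun e => ?_, fun e => ?_⟩ <;> have := (occ w _).1 (h e) <;>
        simp only [add_assoc, Nat.reduceAdd] at this <;> omega
    simp [this]
  have r2 : ∀ j ∈ S, rho S (j + 1) = j + 1 ∧ rho S (j + 2) = j + 3 ∧ rho S (j + 3) = j + 2 ∧
      rho S (j + 4) = j + 4 ∧ (rho S j = j ∨ (3 ≤ j ∧ j - 3 ∈ S ∧ rho S j = j - 1)) := by
    intro j hj
    have := g j hj
    have := g (j - 1)
    have := g (j - 2)
    unfold rho
    grind
  have r1 : ∀ t, rho S (rho S t) = t ∧ (t < m → rho S t < m) := fun t => by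
    by_cases a : 2 ≤ t ∧ t - 2 ∈ S
    · obtain ⟨j, rfl⟩ : ∃ j, t = j + 2 := ⟨t - 2, by omega⟩
      obtain ⟨-, x, y, -⟩ := r2 j a.2
      have := (g j a.2).1
      rw [x, y]
      omega
    by_cases b : 3 ≤ t ∧ t - 3 ∈ S
    · obtain ⟨j, rfl⟩ : ∃ j, t = j + 3 := ⟨t - 3, by omega⟩
      obtain ⟨-, x, y, -⟩ := r2 j b.2
      rw [y, x]
      omega
    have : rho S t = t := by rw [rho, if_neg a, if_neg b]
    simp [this]
  have e : ∀ w : Fin m → Fin n, S ⊆ Occ p0 w ↔
      Ch (fun i : Fin m => Quotient.mk (sd S) (rho S i)) (fun i => rho S i) w := fun w => by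
    have x : ∀ i : Fin m, ext w i = w i := fun i => by simp [ext]
    refine ⟨fun h i j e l => ?_, fun h j hj => ?_⟩
    · have u : ∀ t, (∃ x ∈ S, x ≤ t ∧ t ≤ x + 3) → ext w (rho S t) < ext w (rho S (t + 1)) := by
        rintro t ⟨x, a, b, c⟩
        obtain ⟨-, o1, o2, o3, o4⟩ := (occ w x).1 (h a)
        obtain ⟨e1, e2, e3, e4, e0⟩ := r2 x a
        obtain rfl | rfl | rfl | rfl : t = x ∨ t = x + 1 ∨ t = x + 2 ∨ t = x + 3 := by omega
        · obtain e0 | ⟨z, q, e0⟩ := e0
          · rwa [e0, e1]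
          · obtain ⟨j, rfl⟩ : ∃ j, t = j + 3 := ⟨t - 3, by omega⟩
            rw [e0, e1]
            exact ((occ w j).1 (h q)).2.2.2.2
        · rwa [e1, e2]
        · rwa [e2, e3]
        · rwa [e3, e4]
      have v : ∀ p q, p < q → (∀ t, p ≤ t → t < q → ∃ x ∈ S, x ≤ t ∧ t ≤ x + 3) →
          ext w (rho S p) < ext w (rho S q) := by
        intro p q l
        induction q, l using Nat.le_induction with
        | base => exact fun a => u p (a p le_rfl (by omega))
        | succ q l ih =>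
          exact fun a => (ih fun t b c => a t b (by omega)).trans (u q (a q (by omega) (by omega)))
      have := v _ _ l fun t a b => Quotient.exact e t (Or.inl ⟨a, b⟩)
      rwa [(r1 i).1, (r1 j).1, x, x] at this
    · have a := g j hj
      obtain ⟨e1, e2, e3, e4, e0⟩ := r2 j hj
      have y : ∀ c d, c < 5 → d < 5 → rho S (j + c) < rho S (j + d) → rho S j ≤ rho S (j + c) →
          rho S (j + d) ≤ j + 4 → ext w (j + c) < ext w (j + d) := fun c d _ _ l _ _ => by
        have := h ⟨j + c, by omega⟩ ⟨j + d, by omega⟩ (Quotient.sound fun t e =>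
          if q : j ≤ t then ⟨j, hj, q, by dsimp only at e; omega⟩ else
            ⟨j - 3, (e0.resolve_left (by dsimp only at e; omega)).2.1, by dsimp only at e; omega⟩) l
        rwa [Fin.lt_def, ← x, ← x] at this
      refine (occ w j).2 ⟨a.1, y 0 1 ?_ ?_ ?_ ?_ ?_, y 1 3 ?_ ?_ ?_ ?_ ?_, y 3 2 ?_ ?_ ?_ ?_ ?_,
        y 2 4 ?_ ?_ ?_ ?_ ?_⟩ <;> (try simp only [add_zero]) <;> omega
  simp only [e]
  exact sym _ _ (fun i j q => Fin.ext (by
    have := congrArg (rho S) q
    rwa [(r1 i).1, (r1 j).1] at this)) σ k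

theorem split {α : Type} [Fintype α] (P : α → Prop) (O : α → Finset ℕ) (m : ℕ)
    (h : ∀ w, O w ⊆ range m) (Q : Finset ℕ → Prop) [DecidablePred Q] :
    {w | P w ∧ Q (O w)}.ncard = ∑ T ∈ (range m).powerset with Q T, {w | P w ∧ O w = T}.ncard := by
  classical
  simp only [Set.ncard_eq_toFinset_card']
  rw [card_eq_sum_card_fiberwise (f := O) (t := {T ∈ (range m).powerset | Q T})
    fun w x => by simp at x ⊢; exact ⟨h w, x.2⟩]
  refine sum_congr rfl fun T x => congrArg _ ?_
  ext w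
  simp at x ⊢
  grind

theorem stable : Stable p0 := by
  intro n k σ s
  rw [Equiv.sum_comp σ k]
  generalize ∑ b, k b = m
  have o : ∀ w : Fin m → Fin n, Occ p0 w ⊆ range m := fun w => filter_subset _ _
  have key : ∀ T ∈ (range m).powerset, {w : Fin m → Fin n | Cont k w ∧ Occ p0 w = T}.ncard =
      {w : Fin m → Fin n | Cont (k ∘ σ) w ∧ Occ p0 w = T}.ncard := by
    intro T hT
    induction' hd : m - #T using Nat.strong_induction_on with d ih generalizing T
    have a := sub (m := m) T σ k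
    have b : T ∈ {U ∈ (range m).powerset | T ⊆ U} := mem_filter.2 ⟨hT, Subset.refl _⟩
    rw [split _ _ m o (T ⊆ ·), split _ _ m o (T ⊆ ·), ← add_sum_erase _ _ b, ← add_sum_erase _ _ b,
      sum_congr rfl fun U x => ?_] at a
    · exact Nat.add_right_cancel a
    obtain ⟨x, y⟩ := mem_erase.1 x
    obtain ⟨y, z⟩ := mem_filter.1 y
    have := card_lt_card (Finset.ssubset_iff_subset_ne.2 ⟨z, x.symm⟩)
    have := card_le_card (mem_powerset.1 y)
    rw [card_range] at this
    exact ih _ (by omega) U y rfl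
  rw [split _ _ m o (#· = s), split _ _ m o (#· = s)]
  exact sum_congr rfl fun T x => key T (mem_filter.1 x).1

theorem result : (List.ofFn p0 = [0, 1, 3, 2, 4] ∧ Stable p0) ∧
    ¬ ∀ (l : ℕ) (p : Perm (Fin l)), p ≠ 1 → p ≠ Fin.revPerm → ¬ Stable p :=
  ⟨⟨by decide, stable⟩, fun h => h 5 p0 (by decide) (by decide) stable⟩

end Pool.Agent.Results.MP_5514a7_co.Counter
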